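import Pool.Agent.helper78.HR.Defs
import Pool.Agent.helper22.HR.CT
import Pool.Agent.helper22.HR.CB
import Pool.Agent.helper22.HR.GR

/-!
HR project (MP_58257a_co, S08871), row RD (helper77): one round.
-/

set_option autoImplicit false

namespace Pool.Agent.helper78.HR

open Finset

/-- The weight of the union of a disjoint family is at least its cardinality. -/
theorem hrRD_load {ι : Type*} [Fintype ι] (x y : ι → ℤ) (K : ℕ) (V : Finset (ℤ × ℤ))
    (c : ℤ × ℤ → ℝ)
    (hR : ∀ f ∈ Fam x y K V, 1 ≤ ∑ z ∈ (Gr x y).filter (fun z => In x y f z), c z)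
    (D : Finset (Fm ι)) (hD : D ⊆ Fam x y K V) (hd : Disj x y D)
    [DecidablePred (fun z : ℤ × ℤ => ∃ f ∈ D, In x y f z)] :
    (D.card : ℝ) ≤ ∑ z ∈ (Gr x y).filter (fun z => ∃ f ∈ D, In x y f z), c z := by
  classical
  have e : (Gr x y).filter (fun z => ∃ f ∈ D, In x y f z)
      = D.biUnion (fun f => (Gr x y).filter (fun z => In x y f z)) := by
    ext z
    simp only [mem_filter, mem_biUnion]
    constructor
    · rintro ⟨h1, f, hf, h2⟩
      exact ⟨f, hf, h1, h2⟩
    · rintro ⟨f, hf, h1, h2⟩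
      exact ⟨h1, f, hf, h2⟩
  rw [e, sum_biUnion]
  · calc (D.card : ℝ) = ∑ f ∈ D, (1 : ℝ) := by simp
      _ ≤ ∑ f ∈ D, ∑ z ∈ (Gr x y).filter (fun z => In x y f z), c z :=
        sum_le_sum fun f hf => hR f (hD hf)
  · intro f hf g hg hfg
    have hf' : f ∈ D := hf
    have hg' : g ∈ D := hg
    show Disjoint ((Gr x y).filter (fun z => In x y f z)) ((Gr x y).filter (fun z => In x y g z))
    rw [disjoint_left]
    intro z hz1 hz2
    rw [mem_filter] at hz1 hz2
    exact hd f hf' g hg' hfg z ⟨hz1.2, hz2.2⟩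

/-- A larger set of tokens leaves fewer boxes. -/
theorem hrRD_mono {ι : Type*} [Fintype ι] (x y : ι → ℤ) (K : ℕ) (V V1 : Finset (ℤ × ℤ)) :
    Fam x y K (V ∪ V1) ⊆ Fam x y K V := by
  classical
  intro f hf
  rw [mem_Fam] at hf ⊢
  exact ⟨hf.1, hf.2.1, fun z hz => hf.2.2 z (mem_union_left _ hz)⟩

/-- row RD (step 3; uses count, greedy, choose_bd). One round. -/
theorem round {ι : Type*} [Fintype ι] (x y : ι → ℤ) (hx : Function.Injective x)
    (hy : Function.Injective y) (K : ℕ) (V : Finset (ℤ × ℤ)) (c : ℤ × ℤ → ℝ) (hc : ∀ z, 0 ≤ c z)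
    (W : ℝ) (hW : ∑ z ∈ Gr x y, c z ≤ W)
    (hR : ∀ f ∈ Fam x y K V, 1 ≤ ∑ z ∈ (Gr x y).filter (fun z => In x y f z), c z)
    (N : ℕ) (hN : 1 ≤ N) (hn : N ≤ Fintype.card ι) (hW0 : 0 ≤ W) :
    ∃ V1 : Finset (ℤ × ℤ),
      (V1.card : ℝ) ≤ 4 * W * (1 + Real.log ((Fintype.card ι : ℝ) / N)) + 1 ∧
      NuLE x y K (V ∪ V1) (N - 1) := by
  classical
  have hNp : (0 : ℝ) < N := by exact_mod_cast hN
  have hlog : 0 ≤ Real.log ((Fintype.card ι : ℝ) / N) := by
    apply Real.log_nonneg
    rw [le_div_iff₀ hNp, one_mul]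
    exact_mod_cast hn
  obtain ⟨L, hL⟩ : ∃ L : ℝ, L = 1 + Real.log ((Fintype.card ι : ℝ) / N) := ⟨_, rfl⟩
  have hL0 : 0 < L := by rw [hL]; linarith
  rw [← hL]
  -- the weight of a disjoint family
  have hload : ∀ D : Finset (Fm ι), D ⊆ Fam x y K V → Disj x y D → (D.card : ℝ) ≤ W := by
    intro D hD hd
    refine (hrRD_load x y K V c hR D hD hd).trans (le_trans ?_ hW)
    exact sum_le_sum_of_subset_of_nonneg (filter_subset _ _) (fun z _ _ => hc z)
  by_cases hNW : (N : ℝ) ≤ W
  · -- the main case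
    obtain ⟨F, hF⟩ : ∃ F : Finset (Finset (Fm ι)),
        F = ((Fam x y K V).powersetCard N).filter (fun D => Disj x y D) := ⟨_, rfl⟩
    have hmem : ∀ D, D ∈ F ↔ (D ⊆ Fam x y K V ∧ D.card = N) ∧ Disj x y D := by
      intro D
      rw [hF, mem_filter, mem_powersetCard]
    have hcard : F.card ≤ ((Fintype.card ι).choose N) ^ 4 := by
      refine count x y hx hy N F ?_
      intro D hD
      rw [hmem] at hD
      refine ⟨fun f hf => ?_, hD.2, hD.1.2⟩
      have := hD.1.1 hf
      rw [mem_Fam] at this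
      exact this.1
    have hFle : (F.card : ℝ) ≤ Real.exp (4 * (N * L)) := by
      have h1 : (F.card : ℝ) ≤ (((Fintype.card ι).choose N : ℕ) : ℝ) ^ 4 := by
        exact_mod_cast hcard
      have h2 := choose_bd (Fintype.card ι) N hN hn
      rw [← hL] at h2
      have h3 : (((Fintype.card ι).choose N : ℕ) : ℝ) ^ 4 ≤ (Real.exp (N * L)) ^ 4 :=
        pow_le_pow_left₀ (Nat.cast_nonneg _) h2 4
      have h4 : (Real.exp (N * L)) ^ 4 = Real.exp (4 * (N * L)) := by
        rw [← Real.exp_nat_mul]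
        norm_num
      rw [h4] at h3
      exact h1.trans h3
    have hWp : 0 < W := lt_of_lt_of_le hNp hNW
    obtain ⟨m, hm⟩ : ∃ m : ℕ, m = ⌊4 * W * L⌋₊ + 1 := ⟨_, rfl⟩
    have hmlt : 4 * W * L < m := by
      rw [hm]
      push_cast
      exact Nat.lt_floor_add_one _
    have hmle : (m : ℝ) ≤ 4 * W * L + 1 := by
      rw [hm]
      push_cast
      have := Nat.floor_le (a := 4 * W * L) (by positivity)
      linarith
    have hsm : (F.card : ℝ) * (1 - N / W) ^ m < 1 := by
      have h0 : 0 ≤ 1 - N / W := by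
        rw [sub_nonneg, div_le_one hWp]
        exact hNW
      have h1 : 1 - N / W ≤ Real.exp (-(N / W)) := by
        have := Real.add_one_le_exp (-(N / W) : ℝ)
        linarith
      have h2 : (1 - N / W) ^ m ≤ Real.exp (m * (-(N / W))) := by
        rw [Real.exp_nat_mul]
        exact pow_le_pow_left₀ h0 h1 m
      have h3 : (F.card : ℝ) * (1 - N / W) ^ m
          ≤ Real.exp (4 * (N * L)) * Real.exp (m * (-(N / W))) :=
        mul_le_mul hFle h2 (pow_nonneg h0 m) (Real.exp_nonneg _)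
      refine lt_of_le_of_lt h3 ?_
      rw [← Real.exp_add, ← Real.exp_zero]
      apply Real.exp_lt_exp.2
      have h4 : 4 * (N * L) < m * (N / W) := by
        have h5 : 4 * (N * L) = (4 * W * L) * (N / W) := by
          field_simp
        rw [h5]
        exact mul_lt_mul_of_pos_right hmlt (by positivity)
      linarith
    obtain ⟨V1, -, hV1, hhit⟩ := greedy F (Gr x y) (fun D z => ∃ f ∈ D, In x y f z) c hc W N hNp
      hNW hW (by
        intro D hD
        rw [hmem] at hD
        have := hrRD_load x y K V c hR D hD.1.1 hD.2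
        rw [hD.1.2] at this
        exact this) m hsm
    refine ⟨V1, ?_, ?_⟩
    · refine le_trans ?_ hmle
      exact_mod_cast hV1
    · intro D hD hd
      by_contra hlt
      have hge : N ≤ D.card := by omega
      obtain ⟨D', hD', hcD'⟩ := exists_subset_card_eq hge
      have hin : D' ∈ F := by
        rw [hmem]
        refine ⟨⟨(hD'.trans hD).trans (hrRD_mono x y K V V1), hcD'⟩, ?_⟩
        intro f hf g hg hfg z
        exact hd f (hD' hf) g (hD' hg) hfg z
      obtain ⟨z, hz, f, hf, hfz⟩ := hhit D' hin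
      have h1 := hD (hD' hf)
      rw [mem_Fam] at h1
      exact h1.2.2 z (mem_union_right _ hz) hfz
  · -- few boxes from the start
    refine ⟨∅, ?_, ?_⟩
    · rw [card_empty, Nat.cast_zero]
      positivity
    · intro D hD hd
      have h1 := hload D (hD.trans (hrRD_mono x y K V ∅)) hd
      have h2 : (D.card : ℝ) < N := lt_of_le_of_lt h1 (not_le.1 hNW)
      have h3 : D.card < N := by exact_mod_cast h2
      omega

end Pool.Agent.helper78.HR
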